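import Pool.Agent.Lib.MSeq.Link

/-!
# The misere monotonic sequence game with `d = 3`: draws
-/

set_option autoImplicit false

namespace Pool.Agent.Lib.MSeq

open List

/-- the player to move cannot win with at most `k` own moves (label lists) -/
def Sfe : ℕ → List (ℕ × ℕ) → Prop
  | 0, _ => True
  | k + 1, l => ∀ A x j B, l = A ++ (x, j) :: B → 1 ≤ x → 1 ≤ j →
      nxt A x j B = [] ∨ ∃ A' x' j' B', nxt A x j B = A' ++ (x', j') :: B' ∧ 1 ≤ x' ∧ 1 ≤ j' ∧
        Sfe k (nxt A' x' j' B')

theorem sfe_sound {a d n : ℕ} (ha : 1 ≤ a) (hd : 1 ≤ d) : ∀ (k : ℕ) (r : List ℕ),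
    ¬ Critical a d r.reverse → Sfe k (S a d n r) → ¬ MoverWins a d n k r.reverse := by
  intro k
  induction k with
  | zero =>
    intro r _ _ h
    exact h
  | succ k ih =>
    rintro r hno h ⟨c, hc, hnc, ⟨e0, he0⟩, hall⟩
    unfold Sfe at h
    have hs : 1 ≤ (lab a d r c).1 ∧ 1 ≤ (lab a d r c).2 := by
      by_contra hcon
      exact hnc ((crit_iff ha hd r c hno).2 hcon)
    obtain ⟨U1, U2, hU⟩ := append_of_mem (mem_U.2 hc)
    have hrev : (c :: r).reverse = r.reverse ++ [c] := by simp
    rcases h (U1.map (lab a d r)) (lab a d r c).1 (lab a d r c).2 (U2.map (lab a d r))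
      (by unfold S; rw [hU, map_append, map_cons]) hs.1 hs.2 with h1 | h1
    · rw [← S_cons hU] at h1
      rw [← hrev] at he0
      have h2 := mem_U.2 he0
      unfold S at h1
      rw [map_eq_nil_iff] at h1
      rw [h1] at h2
      exact absurd h2 not_mem_nil
    · obtain ⟨A', x', j', B', h1, hx', hj', hlo⟩ := h1
      rw [← S_cons hU] at h1
      obtain ⟨V1, e, V2, hV, rfl, rfl, rfl, rfl⟩ := map_split h1
      have he : Free n (r.reverse ++ [c]) e := by
        rw [← hrev]
        apply mem_U.1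
        rw [hV]
        simp
      have hne : ¬ Critical a d (r.reverse ++ [c] ++ [e]) := by
        rw [← hrev]
        rw [crit_iff ha hd (c :: r) e (by rw [hrev]; exact hnc)]
        push Not
        exact ⟨hx', hj'⟩
      rw [← S_cons hV] at hlo
      have hrev2 : (e :: c :: r).reverse = r.reverse ++ [c] ++ [e] := by simp
      have h2 := ih (e :: c :: r) (by rw [hrev2]; exact hne) hlo
      rw [hrev2] at h2
      rcases hall e he with h3 | h3
      · exact hne h3
      · exact h2 h3

/-- positions in which the player who is not to move need not lose -/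
def Saf (D : ℕ) (Y : List ℕ) (s u : ℕ) : Prop :=
  Fam D Y s u ∨ (D = 0 ∧ Y = [] ∧ 3 * u ≤ 4 * s + 1) ∨
  (D = 0 ∧ ∃ y, Y = [y] ∧ 1 ≤ y ∧ s ≤ y ∧ 3 * u ≤ 4 * s + 1 ∧
    (y = s ∨ s % 3 = 2 → 3 * (u + 1) ≤ 4 * s + 1))

/-- an answer which does not lose -/
def RespS (D : ℕ) (Y : List ℕ) (s u : ℕ) : Prop :=
  D + Y.length + u = 0 ∨
  (∃ t, t < u ∧ 1 ≤ s ∧ Saf D (Y ++ replicate (u - 1 - t) s) (s - 1) t) ∨
  (∃ Y1 y Y2, Y = Y1 ++ y :: Y2 ∧ 1 ≤ y ∧
    Saf (D + Y1.length) (Y2.map (min (y - 1))) (min s (y - 1)) u)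

theorem respS_of {D s u : ℕ} {Y : List ℕ} (h : Resp D Y s u) : RespS D Y s u := by
  rcases h with ⟨t, h1, h2, h3⟩ | ⟨Y1, y, Y2, h1, h2, h3⟩
  · exact Or.inr (Or.inl ⟨t, h1, h2, Or.inl h3⟩)
  · exact Or.inr (Or.inr ⟨Y1, y, Y2, h1, h2, Or.inl h3⟩)

theorem saf_nil {s u : ℕ} (h : 3 * u ≤ 4 * s + 1) : Saf 0 [] s u := Or.inr (Or.inl ⟨rfl, rfl, h⟩)

theorem saf_one {y s u : ℕ} (h1 : 1 ≤ y) (h2 : s ≤ y) (h3 : 3 * u ≤ 4 * s + 1)
    (h4 : y = s ∨ s % 3 = 2 → 3 * (u + 1) ≤ 4 * s + 1) : Saf 0 [y] s u :=
  Or.inr (Or.inr ⟨rfl, y, rfl, h1, h2, h3, h4⟩)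

theorem saf_T {D s u : ℕ} {Y : List ℕ} (h : Saf D Y s u) (hs : 1 ≤ s) (t : ℕ) (ht : t < u) :
    RespS D (Y ++ replicate (u - 1 - t) s) (s - 1) t := by
  rcases h with h | ⟨rfl, rfl, h⟩ | ⟨rfl, y, rfl, h1, h2, h3, h4⟩
  · exact respS_of (fam_T h hs t ht)
  · -- no middle cards
    rw [nil_append]
    have hmem : ∀ l : ℕ, ∀ y ∈ replicate l s, s - 1 + 1 ≤ y := by
      intro l y hy
      rw [eq_of_mem_replicate hy]; omega
    obtain ⟨m, hm⟩ : ∃ m, m = u - 1 - t := ⟨_, rfl⟩
    rw [← hm]
    rcases Nat.lt_or_ge m 3 with h5 | h5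
    · have h6 : m = 0 ∨ m = 1 ∨ m = 2 := by omega
      rcases h6 with rfl | rfl | rfl
      · rcases Nat.eq_zero_or_pos t with h7 | h7
        · left
          rw [h7]; rfl
        · right; left
          rcases Nat.lt_or_ge (4 * s) (3 * u + 2) with h8 | h8
          · refine ⟨t - 2, by omega, by omega, ?_⟩
            have h9 : t - 1 - (t - 2) = 1 := by omega
            rw [h9]
            exact saf_one (by omega) (by omega) (by omega) (by omega)
          · refine ⟨t - 1, by omega, by omega, ?_⟩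
            have h9 : t - 1 - (t - 1) = 0 := by omega
            rw [h9]
            exact saf_nil (by omega)
      · right; right
        refine ⟨[], s, [], rfl, hs, ?_⟩
        have h9 : min (s - 1) (s - 1) = s - 1 := by omega
        rw [h9]
        exact saf_nil (by omega)
      · rcases Nat.mod_two_eq_zero_or_one t with h7 | h7
        · exact respS_of (resp_even (by simp) (hmem 2) (by simp) h7 (by omega))
        · right; right
          refine ⟨[], s, [s], rfl, hs, ?_⟩
          have h9 : min (s - 1) (s - 1) = s - 1 := by omega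
          have h10 : [s].map (min (s - 1)) = [s - 1] := by
            have : min (s - 1) s = s - 1 := by omega
            rw [map_cons, map_nil, this]
          rw [h9, h10]
          exact saf_one (by omega) (by omega) (by omega) (by omega)
    · rcases Nat.mod_two_eq_zero_or_one t with h7 | h7
      · exact respS_of (resp_even (by simp; omega) (hmem m) (by simp; omega) h7 (by omega))
      · exact respS_of (resp_odd (by simp; omega) (hmem m) (by simp; omega) h7 (by omega))
  · -- one middle card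
    have hmem : ∀ l : ℕ, ∀ z ∈ [y] ++ replicate l s, s - 1 + 1 ≤ z := by
      intro l z hz
      rcases mem_append.1 hz with hz | hz
      · rw [mem_singleton.1 hz]; omega
      · rw [eq_of_mem_replicate hz]; omega
    obtain ⟨m, hm⟩ : ∃ m, m = u - 1 - t := ⟨_, rfl⟩
    rw [← hm]
    rcases Nat.lt_or_ge m 2 with h5 | h5
    · have h6 : m = 0 ∨ m = 1 := by omega
      rcases h6 with rfl | rfl
      · right; right
        refine ⟨[], y, [], rfl, h1, ?_⟩
        have h9 : min (s - 1) (y - 1) = s - 1 := by omega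
        rw [h9]
        exact saf_nil (by omega)
      · rcases Nat.mod_two_eq_zero_or_one t with h7 | h7
        · exact respS_of (resp_even (by simp) (hmem 1) (by simp) h7 (by omega))
        · right; right
          refine ⟨[], y, [s], rfl, h1, ?_⟩
          have h9 : min (s - 1) (y - 1) = s - 1 := by omega
          have h10 : [s].map (min (y - 1)) = [min (y - 1) s] := rfl
          rw [h9, h10]
          rcases Nat.lt_or_ge s y with h11 | h11
          · have h12 : min (y - 1) s = s := by omega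
            rw [h12]
            exact saf_one (by omega) (by omega) (by omega) (by omega)
          · have h12 : min (y - 1) s = s - 1 := by omega
            rw [h12]
            exact saf_one (by omega) (by omega) (by omega) (by omega)
    · rcases Nat.mod_two_eq_zero_or_one t with h7 | h7
      · exact respS_of (resp_even (by simp) (hmem m) (by simp; omega) h7 (by omega))
      · exact respS_of (resp_odd (by simp; omega) (hmem m) (by simp; omega) h7 (by omega))

theorem saf_G {D s u : ℕ} {Y : List ℕ} (h : Saf D Y s u) (Y1 : List ℕ) (w : ℕ) (Y2 : List ℕ)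
    (hY : Y = Y1 ++ w :: Y2) (hw : 1 ≤ w) :
    RespS (D + Y1.length) (Y2.map (min (w - 1))) (min s (w - 1)) u := by
  rcases h with h | ⟨rfl, rfl, h⟩ | ⟨rfl, y, rfl, h1, h2, h3, h4⟩
  · exact respS_of (fam_G h Y1 w Y2 hY hw)
  · have h1 := congrArg List.length hY
    simp at h1
  · obtain ⟨rfl, rfl, rfl⟩ := single_split hY
    rw [length_nil, Nat.add_zero, map_nil]
    rcases Nat.eq_zero_or_pos u with h7 | h7
    · left
      rw [h7]; rfl
    · right; left
      rcases Nat.lt_or_ge s w with h8 | h8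
      · have h9 : min s (w - 1) = s := by omega
        rw [h9]
        refine ⟨u - 1, by omega, by omega, ?_⟩
        have h10 : u - 1 - (u - 1) = 0 := by omega
        rw [h10]
        exact saf_nil (by omega)
      · have h9 : min s (w - 1) = s - 1 := by omega
        rw [h9]
        rcases Nat.lt_or_ge (4 * s) (3 * u + 4) with h11 | h11
        · refine ⟨u - 2, by omega, by omega, ?_⟩
          have h10 : u - 1 - (u - 2) = 1 := by omega
          rw [h10]
          exact saf_one (by omega) (by omega) (by omega) (by omega)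
        · refine ⟨u - 1, by omega, by omega, ?_⟩
          have h10 : u - 1 - (u - 1) = 0 := by omega
          rw [h10]
          exact saf_nil (by omega)

theorem respS_to {ds : List (ℕ × ℕ)} {Y : List ℕ} {s u : ℕ} (hds : ∀ p ∈ ds, p.2 = 0)
    (h : RespS ds.length Y s u) :
    L ds Y s u = [] ∨ ∃ A x j B, L ds Y s u = A ++ (x, j) :: B ∧ 1 ≤ x ∧ 1 ≤ j ∧
      ∃ ds' Y' s' u', nxt A x j B = L ds' Y' s' u' ∧ (∀ p ∈ ds', p.2 = 0) ∧
        Saf ds'.length Y' s' u' := by
  rcases h with h | ⟨t, h1, h2, h3⟩ | ⟨Y1, y, Y2, rfl, h2, h3⟩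
  · left
    apply eq_nil_of_length_eq_zero
    rw [L_length]
    exact h
  · right
    refine ⟨ds ++ (Y.map (fun y => (y, 1)) ++ replicate (u - 1 - t) (s, 2)), s, 2,
      replicate t (s, 2), ?_, h2, by omega, ds, _, _, _, nxt_top hds Y s (u - 1 - t) t, hds,
      h3⟩
    unfold L
    have h4 : u = (u - 1 - t) + (1 + t) := by omega
    conv_lhs => rw [h4, replicate_add, replicate_add]
    simp
  · right
    refine ⟨ds ++ Y1.map (fun y => (y, 1)), y, 1, Y2.map (fun y => (y, 1)) ++
      replicate u (s, 2), ?_, h2, le_rfl, _, _, _, _, nxt_mid ds Y1 Y2 y s u, ?_, ?_⟩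
    · unfold L
      simp
    · intro p hp
      obtain ⟨q, _, rfl⟩ := mem_map.1 hp
      rfl
    · rw [length_map, length_append, length_map]
      exact h3

theorem sfe_saf : ∀ (k : ℕ) (ds : List (ℕ × ℕ)) (Y : List ℕ) (s u : ℕ), (∀ p ∈ ds, p.2 = 0) →
    Saf ds.length Y s u → Sfe k (L ds Y s u) := by
  intro k
  induction k with
  | zero =>
    intro ds Y s u _ _
    exact trivial
  | succ k ih =>
    intro ds Y s u hds h
    unfold Sfe
    intro A x j B hsp hx hj
    have key : ∃ ds' Y' s' u', nxt A x j B = L ds' Y' s' u' ∧ (∀ p ∈ ds', p.2 = 0) ∧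
        RespS ds'.length Y' s' u' := by
      rcases L_split hds hsp hj with ⟨t, ht, rfl, rfl, rfl, rfl⟩ | ⟨Y1, Y2, h1, rfl, rfl, rfl⟩
      · exact ⟨ds, _, _, _, nxt_top hds Y x (u - 1 - t) t, hds, saf_T h hx t ht⟩
      · refine ⟨_, _, _, _, nxt_mid ds Y1 Y2 x s u, ?_, ?_⟩
        · intro p hp
          obtain ⟨q, _, rfl⟩ := mem_map.1 hp
          rfl
        · rw [length_map, length_append, length_map]
          exact saf_G h Y1 x Y2 h1 hx
    obtain ⟨ds', Y', s', u', h1, h2, h3⟩ := key
    rcases respS_to h2 h3 with h4 | ⟨A', x', j', B', h5, h6, h7, ds'', Y'', s'', u'', h8, h9, h10⟩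
    · left
      rw [h1, h4]
    · right
      refine ⟨A', x', j', B', h1.trans h5, h6, h7, ?_⟩
      rw [h8]
      exact ih ds'' Y'' s'' u'' h9 h10

/-- the first player cannot win -/
theorem not_mover_of_saf {a n k : ℕ} (ha : 1 ≤ a) (h : Saf 0 [] (a - 1) n) :
    ¬ MoverWins a 3 n k [] := by
  refine sfe_sound ha (by omega) k [] (not_critical_nil ha (by omega)) ?_
  rw [S_nil]
  exact sfe_saf k [] [] (a - 1) n (by simp) h

/-- the second player cannot win -/
theorem not_other_of_saf {a n k t : ℕ} (ha : 2 ≤ a) (ht : t < n)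
    (h : Saf 0 (replicate (n - 1 - t) (a - 1)) (a - 2) t) : ¬ OtherWins a 3 n k [] := by
  rintro ⟨-, hall⟩
  have h1 : S a 3 n [] = replicate (n - 1 - t) (a - 1, 2) ++ (a - 1, 2) ::
      replicate t (a - 1, 2) := by
    rw [S_nil]
    have h4 : n = (n - 1 - t) + (1 + t) := by omega
    conv_lhs => rw [h4, replicate_add, replicate_add]
    simp
  obtain ⟨V1, c, V2, hV, h5, h6, h7, h8⟩ := map_split h1
  have hc : Free n [] c := by
    have : c ∈ U n [] := by
      rw [hV]
      simp
    exact mem_U.1 this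
  have hnc : ¬ Critical a 3 ([] ++ [c]) := by
    have h9 := crit_iff (a := a) (d := 3) (by omega) (by omega) [] c
      (not_critical_nil (by omega) (by omega))
    rw [reverse_nil] at h9
    rw [h9]
    push Not
    rw [h6, h7]
    omega
  have h10 : S a 3 n [c] = L [] (replicate (n - 1 - t) (a - 1)) (a - 1 - 1) t := by
    rw [S_cons hV, ← h5, ← h8, h6, h7]
    have h11 := nxt_top (ds := []) (by simp) [] (a - 1) (n - 1 - t) t
    rw [nil_append, map_nil, nil_append, nil_append] at h11
    exact h11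
  have h12 : ¬ MoverWins a 3 n k [c].reverse := by
    refine sfe_sound (by omega) (by omega) k [c] hnc ?_
    rw [h10]
    exact sfe_saf k [] _ _ _ (by simp) h
  rcases hall c hc with h13 | h13
  · exact hnc h13
  · exact h12 h13

/-- at most one of the players wins -/
theorem not_both {a d n : ℕ} : ∀ (k m : ℕ) (b : List ℕ), MoverWins a d n k b →
    OtherWins a d n m b → False := by
  intro k
  induction k with
  | zero => intro m b h; exact absurd h (by simp [MoverWins])
  | succ k ih =>
    intro m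
    induction m generalizing k with
    | zero =>
      rintro b ⟨c, hc, hnc, -, -⟩ ⟨-, hall⟩
      rcases hall c hc with h | h
      · exact hnc h
      · exact h
    | succ m ihm =>
      rintro b ⟨c, hc, hnc, he, hall'⟩ ⟨-, hall⟩
      rcases hall c hc with h | h
      · exact hnc h
      · obtain ⟨e, he1, he2, he3, he4⟩ := h
        rcases hall' e he1 with h5 | h5
        · exact he2 h5
        · exact ih m (b ++ [c] ++ [e]) h5 ⟨he3, he4⟩

end Pool.Agent.Lib.MSeq
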