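import Mathlib

/-!
# The misere monotonic sequence game: boards and label lists
-/

set_option autoImplicit false

namespace Pool.Agent.Lib.MSeq

open List

/-- The board `b` (the chosen cards in the order of play) contains a critical sequence: an
increasing subsequence of length `a` or a decreasing subsequence of length `d`. -/
def Critical (a d : ℕ) (b : List ℕ) : Prop :=
  (∃ s : List ℕ, s.Sublist b ∧ s.length = a ∧ s.Pairwise (fun x y => x < y)) ∨
  (∃ s : List ℕ, s.Sublist b ∧ s.length = d ∧ s.Pairwise (fun x y => x > y))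

/-- `c` is a card of the deck `1, ..., n` which is not on the board `b`. -/
def Free (n : ℕ) (b : List ℕ) (c : ℕ) : Prop := 1 ≤ c ∧ c ≤ n ∧ c ∉ b

/-- Misere termination, deck `1, ..., n`: the player to move at the board `b` can force a win
using at most `k` own moves: he plays a card `c` without creating a critical sequence, the deck is
not used up, and after every answer `e` either `e` has created a critical sequence (so that the
other player has lost) or he can force a win from there using at most `k - 1` own moves. -/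
def MoverWins (a d n : ℕ) : ℕ → List ℕ → Prop
  | 0, _ => False
  | k + 1, b => ∃ c, Free n b c ∧ ¬ Critical a d (b ++ [c]) ∧ (∃ e, Free n (b ++ [c]) e) ∧
      ∀ e, Free n (b ++ [c]) e →
        Critical a d (b ++ [c] ++ [e]) ∨ MoverWins a d n k (b ++ [c] ++ [e])

/-- Misere termination, deck `1, ..., n`: the player who is not to move at the board `b` can force
a win using at most `k` own moves: the deck is not used up, and every card `e` creates a critical
sequence or leads to a board at which he (who is then to move) can force a win. -/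
def OtherWins (a d n k : ℕ) (b : List ℕ) : Prop :=
  (∃ e, Free n b e) ∧
    ∀ e, Free n b e → Critical a d (b ++ [e]) ∨ MoverWins a d n k (b ++ [e])

/-- length of the longest `R`-monotone subsequence of the reversed board which can be continued
by `c` -/
def lin (R : ℕ → ℕ → Prop) [DecidableRel R] : List ℕ → ℕ → ℕ
  | [], _ => 0
  | x :: r, c => if R x c then max (lin R r c) (lin R r x + 1) else lin R r c

theorem lin_cons (R : ℕ → ℕ → Prop) [DecidableRel R] (x : ℕ) (r : List ℕ) (c : ℕ) :
    lin R (x :: r) c = if R x c then max (lin R r c) (lin R r x + 1) else lin R r c := rfl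

theorem lin_spec (R : ℕ → ℕ → Prop) [DecidableRel R] (htr : ∀ x y z, R x y → R y z → R x z)
    (r : List ℕ) : ∀ c m, m ≤ lin R r c ↔ ∃ s : List ℕ, s.Sublist r.reverse ∧ s.length = m ∧
      s.Pairwise R ∧ ∀ x ∈ s, R x c := by
  induction r with
  | nil =>
    intro c m
    constructor
    · intro h
      have h : m ≤ 0 := h
      refine ⟨[], by simp, ?_, by simp, by simp⟩
      simp; omega
    · rintro ⟨s, h1, h2, _, _⟩
      have h3 : s = [] := by simpa using h1
      rw [h3] at h2
      have h2 : 0 = m := h2
      omega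
  | cons x r ih =>
    intro c m
    have hrev : (x :: r).reverse = r.reverse ++ [x] := by simp
    rw [hrev]
    constructor
    · intro h
      unfold lin at h
      by_cases hx : R x c
      · rw [if_pos hx] at h
        rcases le_max_iff.1 h with h | h
        · obtain ⟨s, h1, h2, h3, h4⟩ := (ih c m).1 h
          exact ⟨s, h1.trans (sublist_append_left _ _), h2, h3, h4⟩
        · rcases Nat.eq_zero_or_pos m with hm | hm
          · exact ⟨[], by simp, by simp [hm], by simp, by simp⟩
          · obtain ⟨s, h1, h2, h3, h4⟩ := (ih x (m - 1)).1 (by omega)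
            refine ⟨s ++ [x], h1.append (Sublist.refl _), ?_, ?_, ?_⟩
            · rw [length_append, h2, length_singleton]; omega
            · rw [pairwise_append]
              refine ⟨h3, by simp, ?_⟩
              intro y hy z hz
              rw [mem_singleton.1 hz]
              exact h4 y hy
            · intro y hy
              rcases mem_append.1 hy with hy | hy
              · exact htr _ _ _ (h4 y hy) hx
              · rw [mem_singleton.1 hy]; exact hx
      · rw [if_neg hx] at h
        obtain ⟨s, h1, h2, h3, h4⟩ := (ih c m).1 h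
        exact ⟨s, h1.trans (sublist_append_left _ _), h2, h3, h4⟩
    · rintro ⟨s, h1, h2, h3, h4⟩
      obtain ⟨s1, s2, rfl, h5, h6⟩ := sublist_append_iff.1 h1
      have h7 : s2 = [] ∨ s2 = [x] := by
        rcases sublist_cons_iff.1 h6 with h | ⟨r', h, h'⟩
        · left; simpa using h
        · right
          have : r' = [] := by simpa using h'
          rw [h, this]
      unfold lin
      rcases h7 with rfl | rfl
      · rw [append_nil] at h2 h3 h4
        have h8 : m ≤ lin R r c := (ih c m).2 ⟨s1, h5, h2, h3, h4⟩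
        split_ifs
        · exact le_max_of_le_left h8
        · exact h8
      · have hx : R x c := h4 x (by simp)
        rw [if_pos hx]
        apply le_max_of_le_right
        rw [pairwise_append] at h3
        have h8 : s1.length ≤ lin R r x :=
          (ih x s1.length).2 ⟨s1, h5, rfl, h3.1, fun y hy => h3.2.2 y hy x (by simp)⟩
        rw [length_append, length_singleton] at h2
        omega

/-- the existence of a monotone subsequence after one more card -/
theorem mono_step (R : ℕ → ℕ → Prop) [DecidableRel R] (htr : ∀ x y z, R x y → R y z → R x z)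
    (r : List ℕ) (a c : ℕ) (ha : 1 ≤ a)
    (hno : ¬ ∃ s : List ℕ, s.Sublist r.reverse ∧ s.length = a ∧ s.Pairwise R) :
    (∃ s : List ℕ, s.Sublist (r.reverse ++ [c]) ∧ s.length = a ∧ s.Pairwise R) ↔
      a ≤ lin R r c + 1 := by
  constructor
  · rintro ⟨s, h1, h2, h3⟩
    obtain ⟨s1, s2, rfl, h5, h6⟩ := sublist_append_iff.1 h1
    have h7 : s2 = [] ∨ s2 = [c] := by
      rcases sublist_cons_iff.1 h6 with h | ⟨r', h, h'⟩
      · left; simpa using h
      · right
        have : r' = [] := by simpa using h'
        rw [h, this]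
    rcases h7 with rfl | rfl
    · rw [append_nil] at h2 h3
      exact absurd ⟨s1, h5, h2, h3⟩ hno
    · rw [pairwise_append] at h3
      have h8 : s1.length ≤ lin R r c :=
        (lin_spec R htr r c s1.length).2 ⟨s1, h5, rfl, h3.1, fun y hy => h3.2.2 y hy c (by simp)⟩
      rw [length_append, length_singleton] at h2
      omega
  · intro h
    obtain ⟨s, h1, h2, h3, h4⟩ := (lin_spec R htr r c (a - 1)).1 (by omega)
    refine ⟨s ++ [c], h1.append (Sublist.refl _), ?_, ?_⟩
    · rw [length_append, h2, length_singleton]; omega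
    · rw [pairwise_append]
      refine ⟨h3, by simp, ?_⟩
      intro y hy z hz
      rw [mem_singleton.1 hz]
      exact h4 y hy

/-- the label of a card: what is left for increasing and for decreasing subsequences -/
def lab (a d : ℕ) (r : List ℕ) (c : ℕ) : ℕ × ℕ :=
  (a - 1 - lin (fun x y => x < y) r c, d - 1 - lin (fun x y => x > y) r c)

theorem crit_iff {a d : ℕ} (ha : 1 ≤ a) (hd : 1 ≤ d) (r : List ℕ) (c : ℕ)
    (hno : ¬ Critical a d r.reverse) :
    Critical a d (r.reverse ++ [c]) ↔ ¬ (1 ≤ (lab a d r c).1 ∧ 1 ≤ (lab a d r c).2) := by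
  unfold Critical at hno
  push Not at hno
  have h1 := mono_step (fun x y => x < y) (fun x y z h h' => lt_trans h h') r a c ha (by
    rintro ⟨s, h, h', h''⟩
    exact hno.1 s h h' h'')
  have h2 := mono_step (fun x y => x > y) (fun x y z h h' => lt_trans h' h) r d c hd (by
    rintro ⟨s, h, h', h''⟩
    exact hno.2 s h h' h'')
  unfold Critical
  rw [h1, h2]
  unfold lab
  dsimp only
  omega

/-- the cards which are not on the board, in increasing order -/
def U (n : ℕ) (r : List ℕ) : List ℕ := (range' 1 n).filter (fun c => decide (c ∉ r))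

theorem mem_U {n : ℕ} {r : List ℕ} {c : ℕ} : c ∈ U n r ↔ Free n r.reverse c := by
  unfold U Free
  rw [mem_filter, mem_range'_1]
  simp only [decide_eq_true_eq, mem_reverse]
  constructor
  · rintro ⟨⟨h1, h2⟩, h3⟩
    exact ⟨h1, by omega, h3⟩
  · rintro ⟨h1, h2, h3⟩
    exact ⟨⟨h1, by omega⟩, h3⟩

theorem U_sorted (n : ℕ) (r : List ℕ) : (U n r).Pairwise (fun x y => x < y) := by
  unfold U
  apply Pairwise.filter
  exact pairwise_lt_range'

theorem U_cons {n : ℕ} {r U1 U2 : List ℕ} {c : ℕ} (h : U n r = U1 ++ c :: U2) :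
    U n (c :: r) = U1 ++ U2 ∧ (∀ x ∈ U1, x < c) ∧ ∀ x ∈ U2, c < x := by
  have hs := U_sorted n r
  rw [h, pairwise_append, pairwise_cons] at hs
  have h1 : ∀ x ∈ U1, x < c := fun x hx => hs.2.2 x hx c (by simp)
  have h2 : ∀ x ∈ U2, c < x := hs.2.1.1
  refine ⟨?_, h1, h2⟩
  have h3 : U n (c :: r) = (U n r).filter (fun x => decide (x ≠ c)) := by
    unfold U
    rw [filter_filter]
    apply filter_congr
    intro x _
    by_cases hx : x = c
    · simp [hx]
    · simp [hx]
  rw [h3, h, filter_append, filter_cons]
  have h4 : U1.filter (fun x => decide (x ≠ c)) = U1 := by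
    rw [filter_eq_self]
    intro x hx
    have := h1 x hx
    simp; omega
  have h5 : U2.filter (fun x => decide (x ≠ c)) = U2 := by
    rw [filter_eq_self]
    intro x hx
    have := h2 x hx
    simp; omega
  rw [h4, h5]
  simp

/-- the label list after a play at a card with label `(x, j)` -/
def nxt (A : List (ℕ × ℕ)) (x j : ℕ) (B : List (ℕ × ℕ)) : List (ℕ × ℕ) :=
  A.map (fun p => (p.1, min p.2 (j - 1))) ++ B.map (fun p => (min (x - 1) p.1, p.2))

/-- the label list of a (reversed) board -/
def S (a d n : ℕ) (r : List ℕ) : List (ℕ × ℕ) := (U n r).map (lab a d r)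

theorem S_cons {a d n : ℕ} {r U1 U2 : List ℕ} {c : ℕ} (h : U n r = U1 ++ c :: U2) :
    S a d n (c :: r) = nxt (U1.map (lab a d r)) (lab a d r c).1 (lab a d r c).2
      (U2.map (lab a d r)) := by
  obtain ⟨h1, h2, h3⟩ := U_cons h
  unfold S nxt
  rw [h1, map_append, map_map, map_map]
  congr 1
  · apply map_congr_left
    intro x hx
    have h4 := h2 x hx
    have h5 : ¬ c < x := by omega
    have h6 : c > x := h4
    unfold lab
    simp only [Function.comp, lin_cons, if_neg h5, if_pos h6, Prod.mk.injEq]
    refine ⟨trivial, ?_⟩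
    omega
  · apply map_congr_left
    intro x hx
    have h4 := h3 x hx
    have h5 : ¬ c > x := by omega
    unfold lab
    simp only [Function.comp, lin_cons, if_neg h5, if_pos h4, Prod.mk.injEq]
    refine ⟨?_, trivial⟩
    omega

/-- the player to move loses (the other one needs at most `k` moves) -/
def Lo : ℕ → List (ℕ × ℕ) → Prop
  | 0, _ => False
  | k + 1, l => l ≠ [] ∧ ∀ A x j B, l = A ++ (x, j) :: B → 1 ≤ x → 1 ≤ j →
      ∃ A' x' j' B', nxt A x j B = A' ++ (x', j') :: B' ∧ 1 ≤ x' ∧ 1 ≤ j' ∧
        Lo k (nxt A' x' j' B')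

theorem map_split {r : List ℕ} {a d n : ℕ} {A B : List (ℕ × ℕ)} {x j : ℕ}
    (h : S a d n r = A ++ (x, j) :: B) : ∃ U1 c U2, U n r = U1 ++ c :: U2 ∧
      A = U1.map (lab a d r) ∧ (lab a d r c).1 = x ∧ (lab a d r c).2 = j ∧
      B = U2.map (lab a d r) := by
  unfold S at h
  obtain ⟨U1, V, h1, h2, h3⟩ := map_eq_append_iff.1 h
  obtain ⟨c, U2, h4, h5, h6⟩ := map_eq_cons_iff.1 h3
  refine ⟨U1, c, U2, by rw [h1, h4], h2.symm, ?_, ?_, h6.symm⟩
  · rw [h5]
  · rw [h5]

theorem lo_sound {a d n : ℕ} (ha : 1 ≤ a) (hd : 1 ≤ d) : ∀ (k : ℕ) (r : List ℕ),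
    ¬ Critical a d r.reverse → Lo k (S a d n r) → OtherWins a d n k r.reverse := by
  intro k
  induction k with
  | zero =>
    intro r _ h
    exact absurd h (by simp [Lo])
  | succ k ih =>
    intro r hno h
    unfold Lo at h
    obtain ⟨hne, h⟩ := h
    refine ⟨?_, ?_⟩
    · have h1 : U n r ≠ [] := by
        intro h1
        apply hne
        unfold S
        rw [h1]
        rfl
      obtain ⟨c, hc⟩ := exists_mem_of_ne_nil _ h1
      exact ⟨c, mem_U.1 hc⟩
    · intro e he
      by_cases hcr : Critical a d (r.reverse ++ [e])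
      · exact Or.inl hcr
      right
      have hs : 1 ≤ (lab a d r e).1 ∧ 1 ≤ (lab a d r e).2 := by
        by_contra hcon
        exact hcr ((crit_iff ha hd r e hno).2 hcon)
      obtain ⟨U1, U2, hU⟩ := append_of_mem (mem_U.2 he)
      obtain ⟨A', x', j', B', h1, hx', hj', hlo⟩ := h (U1.map (lab a d r)) (lab a d r e).1
        (lab a d r e).2 (U2.map (lab a d r)) (by unfold S; rw [hU, map_append, map_cons])
        hs.1 hs.2
      rw [← S_cons hU] at h1
      obtain ⟨V1, c, V2, hV, rfl, rfl, rfl, rfl⟩ := map_split h1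
      have hrev : (e :: r).reverse = r.reverse ++ [e] := by simp
      have hc : Free n (r.reverse ++ [e]) c := by
        rw [← hrev]
        apply mem_U.1
        rw [hV]
        simp
      have hnc : ¬ Critical a d (r.reverse ++ [e] ++ [c]) := by
        rw [← hrev]
        rw [crit_iff ha hd (e :: r) c (by rw [hrev]; exact hcr)]
        push Not
        exact ⟨hx', hj'⟩
      rw [← S_cons hV] at hlo
      have hrev2 : (c :: e :: r).reverse = r.reverse ++ [e] ++ [c] := by simp
      have h2 := ih (c :: e :: r) (by rw [hrev2]; exact hnc) hlo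
      rw [hrev2] at h2
      exact ⟨c, hc, hnc, h2.1, h2.2⟩

theorem mover_of_lo {a d n : ℕ} (ha : 1 ≤ a) (hd : 1 ≤ d) (k : ℕ) (r : List ℕ)
    (hno : ¬ Critical a d r.reverse) (A : List (ℕ × ℕ)) (x j : ℕ) (B : List (ℕ × ℕ))
    (h : S a d n r = A ++ (x, j) :: B) (hx : 1 ≤ x) (hj : 1 ≤ j) (hlo : Lo k (nxt A x j B)) :
    MoverWins a d n (k + 1) r.reverse := by
  obtain ⟨V1, c, V2, hV, rfl, rfl, rfl, rfl⟩ := map_split h
  have hc : Free n r.reverse c := by
    apply mem_U.1
    rw [hV]
    simp
  have hnc : ¬ Critical a d (r.reverse ++ [c]) := by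
    rw [crit_iff ha hd r c hno]
    push Not
    exact ⟨hx, hj⟩
  rw [← S_cons hV] at hlo
  have hrev2 : (c :: r).reverse = r.reverse ++ [c] := by simp
  have h2 := lo_sound ha hd k (c :: r) (by rw [hrev2]; exact hnc) hlo
  rw [hrev2] at h2
  exact ⟨c, hc, hnc, h2.1, h2.2⟩

theorem S_nil (a d n : ℕ) : S a d n [] = replicate n (a - 1, d - 1) := by
  unfold S U
  have h1 : (range' 1 n).filter (fun c => decide (c ∉ ([] : List ℕ))) = range' 1 n := by
    rw [filter_eq_self]
    intro x _
    simp
  rw [h1]
  have h2 : (range' 1 n).map (lab a d []) = (range' 1 n).map (fun _ => (a - 1, d - 1)) := by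
    apply map_congr_left
    intro x _
    rfl
  rw [h2, map_const', length_range']

theorem not_critical_nil {a d : ℕ} (ha : 1 ≤ a) (hd : 1 ≤ d) : ¬ Critical a d [] := by
  rintro (⟨s, h1, h2, _⟩ | ⟨s, h1, h2, _⟩)
  · have h3 : s = [] := by simpa using h1
    rw [h3] at h2
    simp at h2; omega
  · have h3 : s = [] := by simpa using h1
    rw [h3] at h2
    simp at h2; omega

theorem mover_mono {a d n : ℕ} : ∀ (k m : ℕ) (b : List ℕ), k ≤ m → MoverWins a d n k b →
    MoverWins a d n m b := by
  intro k
  induction k with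
  | zero => intro m b _ h; exact absurd h (by simp [MoverWins])
  | succ k ih =>
    intro m b hm h
    obtain ⟨m, rfl⟩ : ∃ m', m = m' + 1 := ⟨m - 1, by omega⟩
    obtain ⟨c, h1, h2, h3, h4⟩ := h
    refine ⟨c, h1, h2, h3, ?_⟩
    intro e he
    rcases h4 e he with h5 | h5
    · exact Or.inl h5
    · exact Or.inr (ih m _ (by omega) h5)

end Pool.Agent.Lib.MSeq
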