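import Pool.Agent.Lib.MSeq.Three
import Pool.Agent.Lib.MSeq.Game

/-!
# The misere monotonic sequence game with `d = 3`: label lists of the losing positions
-/

set_option autoImplicit false

namespace Pool.Agent.Lib.MSeq

open List

/-- dead cards `ds`, middle cards `Y`, `u` top cards with label `s` -/
def L (ds : List (ℕ × ℕ)) (Y : List ℕ) (s u : ℕ) : List (ℕ × ℕ) :=
  ds ++ (Y.map (fun y => (y, 1)) ++ replicate u (s, 2))

theorem L_length (ds : List (ℕ × ℕ)) (Y : List ℕ) (s u : ℕ) :
    (L ds Y s u).length = ds.length + Y.length + u := by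
  unfold L
  rw [length_append, length_append, length_map, length_replicate]
  omega

theorem split_two {α : Type} {l1 l2 A B : List α} {z : α} (h : l1 ++ l2 = A ++ z :: B) :
    (∃ A', A = l1 ++ A' ∧ l2 = A' ++ z :: B) ∨ (∃ B', l1 = A ++ z :: B' ∧ B = B' ++ l2) := by
  rcases append_eq_append_iff.1 h with ⟨A', h1, h2⟩ | ⟨C, h1, h2⟩
  · exact Or.inl ⟨A', h1, h2⟩
  · cases C with
    | nil =>
      left
      refine ⟨[], ?_, ?_⟩
      · rw [append_nil] at h1 ⊢
        exact h1.symm
      · rw [nil_append] at h2 ⊢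
        exact h2.symm
    | cons c C =>
      right
      rw [cons_append] at h2
      injection h2 with h3 h4
      subst h3
      exact ⟨C, h1, h4⟩

theorem rep_split' {α : Type} {m : ℕ} {y w : α} {Y1 Y2 : List α}
    (h : replicate m y = Y1 ++ w :: Y2) :
    w = y ∧ Y1 = replicate Y1.length y ∧ Y2 = replicate Y2.length y ∧
      Y1.length + 1 + Y2.length = m := by
  have h1 : ∀ v ∈ Y1 ++ w :: Y2, v = y := by
    intro v hv
    rw [← h] at hv
    exact List.eq_of_mem_replicate hv
  refine ⟨h1 w (by simp), ?_, ?_, ?_⟩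
  · exact List.eq_replicate_of_mem fun v hv => h1 v (by simp [hv])
  · exact List.eq_replicate_of_mem fun v hv => h1 v (by simp [hv])
  · have h2 := congrArg List.length h
    rw [List.length_replicate, List.length_append, List.length_cons] at h2
    omega

/-- the cards which can be played -/
theorem L_split {ds : List (ℕ × ℕ)} {Y : List ℕ} {s u : ℕ} {A B : List (ℕ × ℕ)} {x j : ℕ}
    (hds : ∀ p ∈ ds, p.2 = 0) (h : L ds Y s u = A ++ (x, j) :: B) (hj : 1 ≤ j) :
    (∃ t, t < u ∧ x = s ∧ j = 2 ∧ A = ds ++ (Y.map (fun y => (y, 1)) ++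
      replicate (u - 1 - t) (s, 2)) ∧ B = replicate t (s, 2)) ∨
    (∃ Y1 Y2, Y = Y1 ++ x :: Y2 ∧ j = 1 ∧ A = ds ++ Y1.map (fun y => (y, 1)) ∧
      B = Y2.map (fun y => (y, 1)) ++ replicate u (s, 2)) := by
  unfold L at h
  rcases split_two h with ⟨A', h1, h2⟩ | ⟨B', h1, h2⟩
  · rcases split_two h2 with ⟨A'', h3, h4⟩ | ⟨B'', h3, h4⟩
    · left
      obtain ⟨h5, h6, h7, h8⟩ := rep_split' h4
      rw [Prod.mk.injEq] at h5
      refine ⟨B.length, by omega, h5.1, h5.2, ?_, h7⟩
      rw [h1, h3]
      have h9 : u - 1 - B.length = A''.length := by omega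
      rw [h9, ← h6]
    · right
      obtain ⟨Y1, V, h5, h6, h7⟩ := map_eq_append_iff.1 h3
      obtain ⟨c, Y2, h8, h9, h10⟩ := map_eq_cons_iff.1 h7
      rw [Prod.mk.injEq] at h9
      refine ⟨Y1, Y2, ?_, h9.2.symm, ?_, ?_⟩
      · rw [h5, h8, h9.1]
      · rw [h1, h6]
      · rw [h4, h10]
  · exfalso
    have h3 := hds (x, j) (by rw [h1]; simp)
    have h3 : j = 0 := h3
    omega

theorem nxt_top {ds : List (ℕ × ℕ)} (hds : ∀ p ∈ ds, p.2 = 0) (Y : List ℕ) (s l t : ℕ) :
    nxt (ds ++ (Y.map (fun y => (y, 1)) ++ replicate l (s, 2))) s 2 (replicate t (s, 2)) =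
      L ds (Y ++ replicate l s) (s - 1) t := by
  unfold nxt L
  have h1 : ds.map (fun p => (p.1, min p.2 (2 - 1))) = ds := by
    conv_rhs => rw [← map_id ds]
    apply map_congr_left
    rintro ⟨x, j⟩ hp
    have h2 : j = 0 := hds _ hp
    rw [h2]
    rfl
  rw [map_append, map_append, map_map, map_replicate, map_replicate, h1, map_append,
    map_replicate, append_assoc, append_assoc]
  have h2 : min (s - 1) s = s - 1 := by omega
  simp only [h2]
  rw [append_assoc]
  rfl

theorem nxt_mid (ds : List (ℕ × ℕ)) (Y1 Y2 : List ℕ) (w s u : ℕ) :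
    nxt (ds ++ Y1.map (fun y => (y, 1))) w 1
      (Y2.map (fun y => (y, 1)) ++ replicate u (s, 2)) =
      L ((ds ++ Y1.map (fun y => (y, 1))).map (fun p : ℕ × ℕ => (p.1, 0))) (Y2.map (min (w - 1)))
        (min s (w - 1)) u := by
  unfold nxt L
  rw [map_append, map_append, map_append, map_map, map_replicate, map_map, map_map, map_map]
  have h2 : min (w - 1) s = min s (w - 1) := by omega
  simp only [h2, Function.comp_def]
  simp

theorem resp_to {ds : List (ℕ × ℕ)} {Y : List ℕ} {s u : ℕ} (hds : ∀ p ∈ ds, p.2 = 0)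
    (h : Resp ds.length Y s u) :
    ∃ A x j B, L ds Y s u = A ++ (x, j) :: B ∧ 1 ≤ x ∧ 1 ≤ j ∧
      ∃ ds' Y' s' u', nxt A x j B = L ds' Y' s' u' ∧ (∀ p ∈ ds', p.2 = 0) ∧
        Fam ds'.length Y' s' u' ∧
        ds'.length + Y'.length + u' + 1 = ds.length + Y.length + u := by
  rcases h with ⟨t, h1, h2, h3⟩ | ⟨Y1, y, Y2, rfl, h2, h3⟩
  · refine ⟨ds ++ (Y.map (fun y => (y, 1)) ++ replicate (u - 1 - t) (s, 2)), s, 2,
      replicate t (s, 2), ?_, h2, by omega, ds, _, _, _, nxt_top hds Y s (u - 1 - t) t, hds,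
      h3, ?_⟩
    · unfold L
      have h4 : u = (u - 1 - t) + (1 + t) := by omega
      conv_lhs => rw [h4, replicate_add, replicate_add]
      simp
    · rw [length_append, length_replicate]
      omega
  · refine ⟨ds ++ Y1.map (fun y => (y, 1)), y, 1, Y2.map (fun y => (y, 1)) ++
      replicate u (s, 2), ?_, h2, le_rfl, _, _, _, _, nxt_mid ds Y1 Y2 y s u, ?_, ?_, ?_⟩
    · unfold L
      simp
    · intro p hp
      obtain ⟨q, _, rfl⟩ := mem_map.1 hp
      rfl
    · rw [length_map, length_append, length_map]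
      exact h3
    · rw [length_map, length_append, length_map, length_map, length_append, length_cons]
      omega

theorem lo_fam : ∀ (k : ℕ) (ds : List (ℕ × ℕ)) (Y : List ℕ) (s u : ℕ), (∀ p ∈ ds, p.2 = 0) →
    Fam ds.length Y s u → ds.length + Y.length + u ≤ 2 * k → Lo k (L ds Y s u) := by
  intro k
  induction k with
  | zero =>
    intro ds Y s u _ h hk
    have := fam_pos h
    omega
  | succ k ih =>
    intro ds Y s u hds h hk
    have hpos := fam_pos h
    unfold Lo
    refine ⟨?_, ?_⟩
    · intro h0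
      have h1 := L_length ds Y s u
      rw [h0, length_nil] at h1
      omega
    · intro A x j B hsp hx hj
      -- the position after the play
      have key : ∃ ds' Y' s' u', nxt A x j B = L ds' Y' s' u' ∧ (∀ p ∈ ds', p.2 = 0) ∧
          Resp ds'.length Y' s' u' ∧
          ds'.length + Y'.length + u' + 1 = ds.length + Y.length + u := by
        rcases L_split hds hsp hj with ⟨t, ht, rfl, rfl, rfl, rfl⟩ | ⟨Y1, Y2, h1, rfl, rfl, rfl⟩
        · refine ⟨ds, _, _, _, nxt_top hds Y x (u - 1 - t) t, hds, fam_T h hx t ht, ?_⟩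
          rw [length_append, length_replicate]
          omega
        · refine ⟨_, _, _, _, nxt_mid ds Y1 Y2 x s u, ?_, ?_, ?_⟩
          · intro p hp
            obtain ⟨q, _, rfl⟩ := mem_map.1 hp
            rfl
          · rw [length_map, length_append, length_map]
            exact fam_G h Y1 x Y2 h1 hx
          · rw [h1, length_map, length_append, length_map, length_map, length_append,
              length_cons]
            omega
      obtain ⟨ds', Y', s', u', h1, h2, h3, h4⟩ := key
      obtain ⟨A', x', j', B', h5, h6, h7, ds'', Y'', s'', u'', h8, h9, h10, h11⟩ :=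
        resp_to h2 h3
      refine ⟨A', x', j', B', h1.trans h5, h6, h7, ?_⟩
      rw [h8]
      exact ih ds'' Y'' s'' u'' h9 h10 (by omega)

/-- positions of the family with no card on the board -/
theorem other_of_fam {a n k : ℕ} (ha : 1 ≤ a) (h : Fam 0 [] (a - 1) n) (hk : n ≤ 2 * k) :
    OtherWins a 3 n k [] := by
  refine lo_sound ha (by omega) k [] (not_critical_nil ha (by omega)) ?_
  rw [S_nil]
  exact lo_fam k [] [] (a - 1) n (by simp) h (by simpa using hk)

/-- the first move leads to the family -/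
theorem mover_of_fam {a n k t : ℕ} (ha : 2 ≤ a) (ht : t < n)
    (h : Fam 0 (replicate (n - 1 - t) (a - 1)) (a - 2) t) (hk : n ≤ 2 * k + 1) :
    MoverWins a 3 n (k + 1) [] := by
  refine mover_of_lo (by omega) (by omega) k [] (not_critical_nil (by omega) (by omega))
    (replicate (n - 1 - t) (a - 1, 2)) (a - 1) 2 (replicate t (a - 1, 2)) ?_ (by omega)
    (by omega) ?_
  · rw [S_nil]
    have h4 : n = (n - 1 - t) + (1 + t) := by omega
    conv_lhs => rw [h4, replicate_add, replicate_add]
    simp
  · have h1 := nxt_top (ds := []) (by simp) [] (a - 1) (n - 1 - t) t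
    rw [nil_append, map_nil, nil_append, nil_append] at h1
    rw [h1]
    have h2 : a - 1 - 1 = a - 2 := by omega
    rw [h2]
    refine lo_fam k [] _ _ _ (by simp) h ?_
    rw [length_nil, length_replicate]
    omega

end Pool.Agent.Lib.MSeq
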