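import Mathlib

/-!
# The misere monotonic sequence game with `d = 3`: the losing positions

Abstract positions: `D` dead cards, a list `Y` of labels of the middle cards (from below), `u` top
cards with label `s`.
-/

set_option autoImplicit false

namespace Pool.Agent.Lib.MSeq

open List

/-- The family of losing positions (for the player to move). -/
inductive Fam : ℕ → List ℕ → ℕ → ℕ → Prop
  | fin (D s u : ℕ) (h : s = 0 ∨ u = 0) (h1 : 1 ≤ D + u) : Fam D [] s u
  | ev (D s u : ℕ) (h : 1 ≤ D) (h1 : u % 2 = 0) (h2 : 3 * u ≤ 4 * s) : Fam D [] s u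
  | a1 (D s u k : ℕ) (h : 1 ≤ k) (hs : s = 3 * k) (hu : u = 4 * k + 1) : Fam D [] s u
  | a2 (D s u k : ℕ) (h : 1 ≤ k) (hs : s = 3 * k + 1) (hu : u = 4 * k + 3) : Fam D [] s u
  | a3 (D s u k : ℕ) (h : 1 ≤ k) (hs : s = 3 * k + 1) (hu : u = 4 * k + 4) : Fam D [] s u
  | a4 (D s u : ℕ) (hs : s = 4) (hu : u = 9) : Fam D [] s u
  | od (D y s u : ℕ) (h : 1 ≤ D) (hy : s ≤ y) (h1 : u % 2 = 1) (h2 : 3 * (u + 1) ≤ 4 * s) :
      Fam D [y] s u
  | c1 (D y s u k : ℕ) (h : 1 ≤ D) (hy : s + 1 ≤ y) (hs : s = 3 * k + 1) (hu : u = 4 * k + 1) :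
      Fam D [y] s u
  | b (D y s u k : ℕ) (h : 1 ≤ k) (hy : s ≤ y) (hs : s = 3 * k + 1) (hu : u = 4 * k + 2) :
      Fam D [y] s u
  | g1 (D y s u k : ℕ) (h : 1 ≤ k) (hy : s + 1 ≤ y) (hs : s = 3 * k + 2)
      (hu : u = 4 * k + 4 ∨ u = 4 * k + 5) : Fam D [y] s u
  | s1 (D y s u : ℕ) (hy : 2 ≤ y) (hs : s = 1) (hu : 1 ≤ u) (h : 2 ≤ D + u) : Fam D [y] s u
  | c (D m y s u k : ℕ) (hm : 2 ≤ m) (hy : y = s + 1) (hs : s = 3 * k + 1) (hu : u = 4 * k + 1) :
      Fam D (replicate m y) s u
  | g (D m y s u k : ℕ) (hm : 2 ≤ m) (hy : y = s + 1) (hs : s = 3 * k + 2) (hu : u = 4 * k + 3) :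
      Fam D (replicate m y) s u
  | h (D m y s u k : ℕ) (hm : 2 ≤ m) (hy : y = s + 1) (hk : 1 ≤ k) (hm' : 3 ≤ m ∨ 2 ≤ k)
      (hs : s = 3 * k) (hu : u = 4 * k + 2) : Fam D (replicate m y) s u
  | d1 (D m y s u : ℕ) (hm : 1 ≤ m) (hy : y = 2) (hs : s = 1) (hu : 1 ≤ u) (h : 3 ≤ D + m + u) :
      Fam D (replicate m y) s u
  | d2 (D y z s u : ℕ) (hy : 3 ≤ y) (hz : 3 ≤ z) (hs : s = 2) (hu : 3 ≤ u) : Fam D [y, z] s u

/-- a response into the family -/
def Resp (D : ℕ) (Y : List ℕ) (s u : ℕ) : Prop :=
  (∃ t, t < u ∧ 1 ≤ s ∧ Fam D (Y ++ replicate (u - 1 - t) s) (s - 1) t) ∨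
  (∃ Y1 y Y2, Y = Y1 ++ y :: Y2 ∧ 1 ≤ y ∧
    Fam (D + Y1.length) (Y2.map (min (y - 1))) (min s (y - 1)) u)

theorem resp_T {D s u : ℕ} {Y : List ℕ} (t : ℕ) (h1 : t < u) (h2 : 1 ≤ s)
    (h : Fam D (Y ++ replicate (u - 1 - t) s) (s - 1) t) : Resp D Y s u := Or.inl ⟨t, h1, h2, h⟩

/-- play the last middle card -/
theorem resp_last {D s u : ℕ} {Y1 : List ℕ} (z : ℕ) (hz : 1 ≤ z)
    (h : Fam (D + Y1.length) [] (min s (z - 1)) u) : Resp D (Y1 ++ [z]) s u :=
  Or.inr ⟨Y1, z, [], rfl, hz, h⟩

/-- remove all middle cards -/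
theorem resp_all {D s u : ℕ} {Y : List ℕ} (hY : 1 ≤ Y.length) (hl : ∀ y ∈ Y, s + 1 ≤ y)
    (h : Fam (D + Y.length - 1) [] s u) : Resp D Y s u := by
  obtain ⟨Y1, y, rfl⟩ : ∃ Y1 y, Y = Y1 ++ [y] := by
    rcases List.eq_nil_or_concat Y with h | ⟨Y1, y, h⟩
    · rw [h] at hY; simp at hY
    · exact ⟨Y1, y, by simpa using h⟩
  have h0 := hl y (by simp)
  refine resp_last y (by omega) ?_
  have h2 : min s (y - 1) = s := by omega
  rw [h2]
  have h3 : D + (Y1 ++ [y]).length - 1 = D + Y1.length := by
    rw [List.length_append, List.length_singleton]; omega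
  rw [h3] at h
  exact h

/-- leave one middle card -/
theorem resp_one {D s u : ℕ} {Y : List ℕ} (w : ℕ) (hw : s ≤ w) (hY : 2 ≤ Y.length)
    (hl : ∀ y ∈ Y, w + 1 ≤ y)
    (h : ∀ z, w ≤ z → Fam (D + Y.length - 2) [z] s u) : Resp D Y s u := by
  obtain ⟨Y1, y, z, rfl⟩ : ∃ Y1 y z, Y = Y1 ++ [y, z] := by
    rcases List.eq_nil_or_concat Y with h | ⟨Y0, z, h⟩
    · rw [h] at hY; simp at hY
    · rcases List.eq_nil_or_concat Y0 with h' | ⟨Y1, y, h'⟩
      · rw [h, h'] at hY; simp at hY
      · refine ⟨Y1, y, z, ?_⟩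
        rw [h, h']; simp
  refine Or.inr ⟨Y1, y, [z], rfl, ?_, ?_⟩
  · have := hl y (by simp)
    omega
  · have h1 := hl y (by simp)
    have h1' := hl z (by simp)
    have h2 : min s (y - 1) = s := by omega
    rw [h2]
    have h3 : D + (Y1 ++ [y, z]).length - 2 = D + Y1.length := by
      rw [List.length_append, List.length_cons, List.length_singleton]; omega
    rw [h3] at h
    have h4 : List.map (min (y - 1)) [z] = [min (y - 1) z] := rfl
    rw [h4]
    exact h _ (by omega)

theorem resp_even {D s u : ℕ} {Y : List ℕ} (hY : 1 ≤ Y.length) (hl : ∀ y ∈ Y, s + 1 ≤ y)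
    (hD : 2 ≤ D + Y.length) (h1 : u % 2 = 0) (h2 : 3 * u ≤ 4 * s) : Resp D Y s u :=
  resp_all hY hl (Fam.ev _ _ _ (by omega) h1 h2)

theorem resp_odd {D s u : ℕ} {Y : List ℕ} (hY : 2 ≤ Y.length) (hl : ∀ y ∈ Y, s + 1 ≤ y)
    (hD : 3 ≤ D + Y.length) (h1 : u % 2 = 1) (h2 : 3 * (u + 1) ≤ 4 * s) : Resp D Y s u :=
  resp_one s le_rfl hY hl fun z hz => Fam.od _ _ _ _ (by omega) hz h1 h2

/-- play a middle card above all later labels -/
theorem resp_mid {D s u : ℕ} {Y1 Y2 : List ℕ} (z : ℕ) (hz : 1 ≤ z) (hs : s ≤ z - 1)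
    (hl : ∀ w ∈ Y2, w ≤ z - 1) (h : Fam (D + Y1.length) Y2 s u) :
    Resp D (Y1 ++ z :: Y2) s u := by
  refine Or.inr ⟨Y1, z, Y2, rfl, hz, ?_⟩
  have h2 : min s (z - 1) = s := by omega
  have h3 : Y2.map (min (z - 1)) = Y2 := by
    conv_rhs => rw [← List.map_id Y2]
    apply List.map_congr_left
    intro w hw
    have := hl w hw
    simp only [id]
    omega
  rw [h2, h3]
  exact h

/-- play inside the first block -/
theorem resp_blk {D s u m l y z : ℕ} (x : ℕ) (hx : x + 1 ≤ m) (hy : y = s + 2)
    (hz : z = s + 1) (h : Fam (D + (m - 1 - x)) (replicate (x + l) z) s u) :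
    Resp D (replicate m y ++ replicate l z) s u := by
  refine Or.inr ⟨replicate (m - 1 - x) y, y, replicate x y ++ replicate l z, ?_, by omega, ?_⟩
  · have h1 : m = (m - 1 - x) + (1 + x) := by omega
    conv_lhs => rw [h1, List.replicate_add, List.replicate_add]
    simp
  · rw [List.length_replicate]
    have h2 : min s (y - 1) = s := by omega
    rw [h2]
    have h3 : List.map (min (y - 1)) (replicate x y ++ replicate l z) =
        replicate (x + l) z := by
      rw [List.map_append, List.map_replicate, List.map_replicate, List.replicate_add]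
      have h4 : min (y - 1) y = z := by omega
      have h5 : min (y - 1) z = z := by omega
      rw [h4, h5]
    rw [h3]
    exact h

theorem rep_split {m y w : ℕ} {Y1 Y2 : List ℕ} (h : replicate m y = Y1 ++ w :: Y2) :
    w = y ∧ Y1 = replicate Y1.length y ∧ Y2 = replicate Y2.length y ∧
      Y1.length + 1 + Y2.length = m := by
  have h1 : ∀ v ∈ Y1 ++ w :: Y2, v = y := by
    intro v hv
    rw [← h] at hv
    exact List.eq_of_mem_replicate hv
  refine ⟨h1 w (by simp), ?_, ?_, ?_⟩
  · exact List.eq_replicate_of_mem fun v hv => h1 v (by simp [hv])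
  · exact List.eq_replicate_of_mem fun v hv => h1 v (by simp [hv])
  · have h2 := congrArg List.length h
    rw [List.length_replicate, List.length_append, List.length_cons] at h2
    omega

theorem rep_resp_T {D s u x y : ℕ} (t : ℕ) (h1 : t < u) (h2 : 1 ≤ s) (hy : y = s)
    (h : Fam D (replicate (x + (u - 1 - t)) y) (s - 1) t) : Resp D (replicate x y) s u := by
  refine resp_T t h1 h2 ?_
  subst hy
  rw [← List.replicate_add]
  exact h

theorem nil_resp_T {D s u : ℕ} (t : ℕ) (h1 : t < u) (h2 : 1 ≤ s)
    (h : Fam D (replicate (u - 1 - t) s) (s - 1) t) : Resp D [] s u :=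
  resp_T t h1 h2 (by rw [List.nil_append]; exact h)

/-- the answer to a play among the top cards -/
theorem fam_T {D s u : ℕ} {Y : List ℕ} (h : Fam D Y s u) (hs : 1 ≤ s) (t : ℕ) (ht : t < u) :
    Resp D (Y ++ replicate (u - 1 - t) s) (s - 1) t := by
  have hrep : ∀ (Y0 : List ℕ) (l w : ℕ), w ≤ s → (∀ y ∈ Y0, w ≤ y) →
      ∀ y ∈ Y0 ++ replicate l s, w ≤ y := by
    intro Y0 l w hw hY0 y hy
    rcases List.mem_append.1 hy with hy | hy
    · exact hY0 y hy
    · rw [List.eq_of_mem_replicate hy]; exact hw
  have hlen : ∀ (Y0 : List ℕ) (l : ℕ), (Y0 ++ replicate l s).length = Y0.length + l := by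
    intro Y0 l
    rw [List.length_append, List.length_replicate]
  have hnil : ∀ y ∈ ([] : List ℕ), s ≤ y := fun y hy => absurd hy (List.not_mem_nil)
  have hs' : s - 1 + 1 ≤ s := by omega
  have hmem0 : ∀ y ∈ ([] : List ℕ), s - 1 + 1 ≤ y := fun y hy => by simp at hy
  cases h with
  | fin _ _ h h1 => omega
  | ev _ _ h h1 h2 =>
    rcases Nat.mod_two_eq_zero_or_one t with h3 | h3
    · exact resp_even (by rw [hlen]; simp; omega) (hrep _ _ _ hs' hmem0)
        (by rw [hlen]; simp; omega) h3 (by omega)
    · rcases Nat.lt_or_ge (t + 1) u with h4 | h4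
      · exact resp_odd (by rw [hlen]; simp; omega) (hrep _ _ _ hs' hmem0)
          (by rw [hlen]; simp; omega) h3 (by omega)
      · have h5 : u - 1 - t = 0 := by omega
        rw [h5]
        rcases Nat.lt_or_ge (4 * s) (3 * u + 2) with h6 | h6
        · refine nil_resp_T (t - 2) (by omega) (by omega) ?_
          have h7 : t - 1 - (t - 2) = 1 := by omega
          rw [h7]
          exact Fam.c1 _ _ _ _ (s / 3 - 1) h (by omega) (by omega) (by omega)
        · refine nil_resp_T (t - 1) (by omega) (by omega) ?_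
          have h7 : t - 1 - (t - 1) = 0 := by omega
          rw [h7]
          exact Fam.ev _ _ _ h (by omega) (by omega)
  | a1 _ _ k h hsk hu =>
    rcases Nat.mod_two_eq_zero_or_one t with h3 | h3
    · rcases Nat.lt_or_ge t (4 * k) with h4 | h4
      · exact resp_even (by rw [hlen]; simp; omega) (hrep _ _ _ hs' hmem0)
          (by rw [hlen]; simp; omega) h3 (by omega)
      · have h5 : u - 1 - t = 0 := by omega
        rw [h5]
        refine nil_resp_T (4 * k - 3) (by omega) (by omega) ?_
        have h7 : t - 1 - (4 * k - 3) = 2 := by omega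
        rw [h7]
        exact Fam.c _ _ _ _ _ (k - 1) (by omega) (by omega) (by omega) (by omega)
    · rcases Nat.lt_or_ge (t + 1) (4 * k) with h4 | h4
      · exact resp_odd (by rw [hlen]; simp; omega) (hrep _ _ _ hs' hmem0)
          (by rw [hlen]; simp; omega) h3 (by omega)
      · have h5 : u - 1 - t = 1 := by omega
        rw [h5]
        refine resp_T (t - 1) (by omega) (by omega) ?_
        have h7 : t - 1 - (t - 1) = 0 := by omega
        rw [h7]
        rcases Nat.lt_or_ge 1 k with h8 | h8
        · exact Fam.b _ _ _ _ (k - 1) (by omega) (by omega) (by omega) (by omega)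
        · exact Fam.s1 _ _ _ _ (by omega) (by omega) (by omega) (by omega)
  | a2 _ _ k h hsk hu =>
    rcases Nat.mod_two_eq_zero_or_one t with h3 | h3
    · rcases Nat.lt_or_ge t (4 * k + 1) with h4 | h4
      · exact resp_even (by rw [hlen]; simp; omega) (hrep _ _ _ hs' hmem0)
          (by rw [hlen]; simp; omega) h3 (by omega)
      · have h5 : u - 1 - t = 0 := by omega
        rw [h5]
        refine nil_resp_T (4 * k - 1) (by omega) (by omega) ?_
        have h7 : t - 1 - (4 * k - 1) = 2 := by omega
        rw [h7]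
        exact Fam.g _ _ _ _ _ (k - 1) (by omega) (by omega) (by omega) (by omega)
    · rcases Nat.lt_or_ge t (4 * k) with h4 | h4
      · exact resp_odd (by rw [hlen]; simp; omega) (hrep _ _ _ hs' hmem0)
          (by rw [hlen]; simp; omega) h3 (by omega)
      · exact resp_all (by rw [hlen]; simp; omega) (hrep _ _ _ hs' hmem0)
          (Fam.a1 _ _ _ k h (by omega) (by omega))
  | a3 _ _ k h hsk hu =>
    rcases Nat.mod_two_eq_zero_or_one t with h3 | h3
    · rcases Nat.lt_or_ge t (4 * k + 1) with h4 | h4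
      · exact resp_even (by rw [hlen]; simp; omega) (hrep _ _ _ hs' hmem0)
          (by rw [hlen]; simp; omega) h3 (by omega)
      · have h5 : u - 1 - t = 1 := by omega
        rw [h5]
        rcases Nat.lt_or_ge 1 k with h8 | h8
        · refine resp_T (t - 1) (by omega) (by omega) ?_
          have h7 : t - 1 - (t - 1) = 0 := by omega
          rw [h7]
          exact Fam.g1 _ _ _ _ (k - 1) (by omega) (by omega) (by omega) (by omega)
        · refine resp_T 4 (by omega) (by omega) ?_
          have h7 : t - 1 - 4 = 1 := by omega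
          rw [h7]
          exact Fam.d2 _ _ _ _ _ (by omega) (by omega) (by omega) (by omega)
    · rcases Nat.lt_or_ge t (4 * k) with h4 | h4
      · exact resp_odd (by rw [hlen]; simp; omega) (hrep _ _ _ hs' hmem0)
          (by rw [hlen]; simp; omega) h3 (by omega)
      · rcases Nat.lt_or_ge t (4 * k + 2) with h6 | h6
        · exact resp_all (by rw [hlen]; simp; omega) (hrep _ _ _ hs' hmem0)
            (Fam.a1 _ _ _ k h (by omega) (by omega))
        · have h5 : u - 1 - t = 0 := by omega
          rw [h5]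
          refine nil_resp_T (4 * k - 1) (by omega) (by omega) ?_
          have h7 : t - 1 - (4 * k - 1) = 3 := by omega
          rw [h7]
          exact Fam.g _ _ _ _ _ (k - 1) (by omega) (by omega) (by omega) (by omega)
  | a4 _ _ hsk hu =>
    subst hsk
    subst hu
    have h9 : t = 0 ∨ t = 2 ∨ t = 4 ∨ t = 1 ∨ t = 3 ∨ t = 5 ∨ t = 6 ∨ t = 7 ∨ t = 8 := by omega
    rcases h9 with rfl | rfl | rfl | rfl | rfl | rfl | rfl | rfl | rfl
    · exact resp_even (by simp) (hrep _ _ _ hs' hmem0) (by simp) (by omega) (by omega)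
    · exact resp_even (by simp) (hrep _ _ _ hs' hmem0) (by simp) (by omega) (by omega)
    · exact resp_even (by simp) (hrep _ _ _ hs' hmem0) (by simp) (by omega) (by omega)
    · exact resp_odd (by simp) (hrep _ _ _ hs' hmem0) (by simp) (by omega) (by omega)
    · exact resp_odd (by simp) (hrep _ _ _ hs' hmem0) (by simp) (by omega) (by omega)
    · exact resp_all (by simp) (hrep _ _ _ hs' hmem0)
        (Fam.a1 _ _ _ 1 (by omega) (by omega) (by omega))
    · exact resp_T 5 (by omega) (by omega)
        (Fam.d2 _ 4 4 _ _ (by omega) (by omega) (by omega) (by omega))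
    · exact resp_T 5 (by omega) (by omega)
        (Fam.d2 _ 4 3 _ _ (by omega) (by omega) (by omega) (by omega))
    · exact resp_T 3 (by omega) (by omega)
        (Fam.g _ 4 3 _ _ 0 (by omega) (by omega) (by omega) (by omega))
  | od y _ _ h hy h1 h2 =>
    have hm : ∀ z ∈ [y], s - 1 + 1 ≤ z := fun z hz => by
      rw [List.mem_singleton.1 hz]; omega
    rcases Nat.mod_two_eq_zero_or_one t with h3 | h3
    · exact resp_even (by rw [hlen]; simp) (hrep _ _ _ hs' hm)
        (by rw [hlen]; simp; omega) h3 (by omega)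
    · exact resp_odd (by rw [hlen]; simp; omega) (hrep _ _ _ hs' hm)
        (by rw [hlen]; simp; omega) h3 (by omega)
  | c1 y _ _ k h hy hsk hu =>
    have hm : ∀ z ∈ [y], s - 1 + 1 ≤ z := fun z hz => by
      rw [List.mem_singleton.1 hz]; omega
    rcases Nat.mod_two_eq_zero_or_one t with h3 | h3
    · exact resp_even (by rw [hlen]; simp) (hrep _ _ _ hs' hm)
        (by rw [hlen]; simp; omega) h3 (by omega)
    · exact resp_odd (by rw [hlen]; simp; omega) (hrep _ _ _ hs' hm)
        (by rw [hlen]; simp; omega) h3 (by omega)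
  | b y _ _ k h hy hsk hu =>
    have hm : ∀ z ∈ [y], s - 1 + 1 ≤ z := fun z hz => by
      rw [List.mem_singleton.1 hz]; omega
    rcases Nat.mod_two_eq_zero_or_one t with h3 | h3
    · exact resp_even (by rw [hlen]; simp) (hrep _ _ _ hs' hm)
        (by rw [hlen]; simp; omega) h3 (by omega)
    · rcases Nat.lt_or_ge t (4 * k) with h4 | h4
      · exact resp_odd (by rw [hlen]; simp; omega) (hrep _ _ _ hs' hm)
          (by rw [hlen]; simp; omega) h3 (by omega)
      · have h5 : u - 1 - t = 0 := by omega
        rw [h5]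
        exact resp_all (by simp) (by rw [List.replicate_zero, List.append_nil]; exact hm)
          (Fam.a1 _ _ _ k h (by omega) (by omega))
  | g1 y _ _ k h hy hsk hu =>
    have hm : ∀ z ∈ [y], s - 1 + 1 ≤ z := fun z hz => by
      rw [List.mem_singleton.1 hz]; omega
    rcases Nat.lt_or_ge t (4 * k + 1) with h4 | h4
    · rcases Nat.mod_two_eq_zero_or_one t with h3 | h3
      · exact resp_even (by rw [hlen]; simp) (hrep _ _ _ hs' hm)
          (by rw [hlen]; simp; omega) h3 (by omega)
      · exact resp_odd (by rw [hlen]; simp; omega) (hrep _ _ _ hs' hm)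
          (by rw [hlen]; simp; omega) h3 (by omega)
    · have h9 : t = 4 * k + 1 ∨ t = 4 * k + 2 ∨ t = 4 * k + 3 ∨ t = 4 * k + 4 := by omega
      rcases h9 with h9 | h9 | h9 | h9
      · have h10 : [y] ++ replicate (u - 1 - t) s = [] ++ y :: replicate (u - 1 - t) s := rfl
        rw [h10]
        refine resp_mid y (by omega) (by omega) ?_ ?_
        · intro w hw
          rw [List.eq_of_mem_replicate hw]; omega
        · exact Fam.c _ _ _ _ _ k (by omega) (by omega) (by omega) (by omega)
      · exact resp_one (s - 1) le_rfl (by rw [hlen]; simp; omega) (hrep _ _ _ hs' hm)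
          fun z hz => Fam.b _ _ _ _ k h hz (by omega) (by omega)
      · exact resp_all (by rw [hlen]; simp) (hrep _ _ _ hs' hm)
          (Fam.a2 _ _ _ k h (by omega) (by omega))
      · exact resp_all (by rw [hlen]; simp) (hrep _ _ _ hs' hm)
          (Fam.a3 _ _ _ k h (by omega) (by omega))
  | s1 y _ _ hy hsk hu h =>
    have hm : ∀ z ∈ [y], s - 1 + 1 ≤ z := fun z hz => by
      rw [List.mem_singleton.1 hz]; omega
    refine resp_all (by rw [hlen]; simp) (hrep _ _ _ hs' hm) (Fam.fin _ _ _ (by omega) ?_)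
    rw [hlen]; simp; omega
  | c m y _ _ k hm hy hsk hu =>
    have hm' : ∀ z ∈ replicate m y, s - 1 + 1 ≤ z := fun z hz => by
      rw [List.eq_of_mem_replicate hz]; omega
    rcases Nat.mod_two_eq_zero_or_one t with h3 | h3
    · exact resp_even (by rw [hlen]; simp; omega) (hrep _ _ _ hs' hm')
        (by rw [hlen]; simp; omega) h3 (by omega)
    · exact resp_odd (by rw [hlen]; simp; omega) (hrep _ _ _ hs' hm')
        (by rw [hlen]; simp; omega) h3 (by omega)
  | g m y _ _ k hm hy hsk hu =>
    have hm' : ∀ z ∈ replicate m y, s - 1 + 1 ≤ z := fun z hz => by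
      rw [List.eq_of_mem_replicate hz]; omega
    rcases Nat.lt_or_ge t (4 * k + 1) with h4 | h4
    · rcases Nat.mod_two_eq_zero_or_one t with h3 | h3
      · exact resp_even (by rw [hlen]; simp; omega) (hrep _ _ _ hs' hm')
          (by rw [hlen]; simp; omega) h3 (by omega)
      · exact resp_odd (by rw [hlen]; simp; omega) (hrep _ _ _ hs' hm')
          (by rw [hlen]; simp; omega) h3 (by omega)
    · have h9 : t = 4 * k + 1 ∨ t = 4 * k + 2 := by omega
      rcases h9 with h9 | h9
      · exact resp_blk (m - 1) (by omega) (by omega) (by omega)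
          (Fam.c _ _ _ _ _ k (by omega) (by omega) (by omega) (by omega))
      · have h5 : u - 1 - t = 0 := by omega
        rw [h5, List.replicate_zero, List.append_nil]
        refine resp_one s (by omega) (by simp; omega) ?_ ?_
        · intro z hz
          rw [List.eq_of_mem_replicate hz]; omega
        · intro z hz
          rcases Nat.eq_zero_or_pos k with h6 | h6
          · exact Fam.s1 _ _ _ _ (by omega) (by omega) (by omega) (by omega)
          · exact Fam.b _ _ _ _ k h6 (by omega) (by omega) (by omega)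
  | h m y _ _ k hm hy hk hm1 hsk hu =>
    have hm' : ∀ z ∈ replicate m y, s - 1 + 1 ≤ z := fun z hz => by
      rw [List.eq_of_mem_replicate hz]; omega
    rcases Nat.lt_or_ge t (4 * k - 1) with h4 | h4
    · rcases Nat.mod_two_eq_zero_or_one t with h3 | h3
      · exact resp_even (by rw [hlen]; simp; omega) (hrep _ _ _ hs' hm')
          (by rw [hlen]; simp; omega) h3 (by omega)
      · exact resp_odd (by rw [hlen]; simp; omega) (hrep _ _ _ hs' hm')
          (by rw [hlen]; simp; omega) h3 (by omega)
    · have h9 : t = 4 * k - 1 ∨ t = 4 * k ∨ t = 4 * k + 1 := by omega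
      rcases h9 with h9 | h9 | h9
      · exact resp_blk 0 (by omega) (by omega) (by omega)
          (Fam.g _ _ _ _ _ (k - 1) (by omega) (by omega) (by omega) (by omega))
      · rcases Nat.lt_or_ge 1 k with h8 | h8
        · have h5 : u - 1 - t = 1 := by omega
          rw [h5]
          exact resp_blk 0 (by omega) (by omega) (by omega)
            (Fam.g1 _ _ _ _ (k - 1) (by omega) (by omega) (by omega) (by omega))
        · have h5 : u - 1 - t = 1 := by omega
          rw [h5]
          exact resp_blk 1 (by omega) (by omega) (by omega)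
            (Fam.d2 _ _ _ _ _ (by omega) (by omega) (by omega) (by omega))
      · have h5 : u - 1 - t = 0 := by omega
        rw [h5]
        rcases Nat.lt_or_ge 1 k with h8 | h8
        · exact resp_blk (z := s) 1 (by omega) (by omega) (by omega)
            (Fam.g1 _ _ _ _ (k - 1) (by omega) (by omega) (by omega) (by omega))
        · exact resp_blk (z := s) 2 (by omega) (by omega) (by omega)
            (Fam.d2 _ _ _ _ _ (by omega) (by omega) (by omega) (by omega))
  | d1 m y _ _ hm hy hsk hu h =>
    have hm' : ∀ z ∈ replicate m y, s - 1 + 1 ≤ z := fun z hz => by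
      rw [List.eq_of_mem_replicate hz]; omega
    refine resp_all (by rw [hlen]; simp; omega) (hrep _ _ _ hs' hm')
      (Fam.fin _ _ _ (by omega) ?_)
    rw [hlen]; simp; omega
  | d2 y z _ _ hy hz hsk hu =>
    have hm' : ∀ w ∈ [y, z], s - 1 + 1 ≤ w := fun w hw => by
      rcases List.mem_cons.1 hw with h | h
      · omega
      · rw [List.mem_singleton.1 h]; omega
    rcases Nat.eq_zero_or_pos t with h4 | h4
    · refine resp_all (by rw [hlen]; simp; omega) (hrep _ _ _ hs' hm')
        (Fam.fin _ _ _ (by omega) ?_)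
      rw [hlen]; simp; omega
    · rcases Nat.lt_or_ge (t + 1) u with h5 | h5
      · have h10 : [y, z] ++ replicate (u - 1 - t) s = [y] ++ z :: replicate (u - 1 - t) s := rfl
        rw [h10]
        refine resp_mid z (by omega) (by omega) ?_ ?_
        · intro w hw
          rw [List.eq_of_mem_replicate hw]; omega
        · exact Fam.d1 _ _ _ _ _ (by omega) (by omega) (by omega) (by omega)
            (by simp; omega)
      · have h6 : u - 1 - t = 0 := by omega
        rw [h6, List.replicate_zero, List.append_nil]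
        refine resp_one 2 (by omega) (by simp) ?_ ?_
        · intro w hw
          rcases List.mem_cons.1 hw with h | h
          · omega
          · rw [List.mem_singleton.1 h]; omega
        · intro w hw
          exact Fam.s1 _ _ _ _ hw (by omega) (by omega) (by omega)

theorem single_split {y w : ℕ} {Y1 Y2 : List ℕ} (h : [y] = Y1 ++ w :: Y2) :
    w = y ∧ Y1 = [] ∧ Y2 = [] := by
  cases Y1 with
  | nil =>
    rw [List.nil_append] at h
    injection h with h1 h2
    exact ⟨h1.symm, rfl, h2.symm⟩
  | cons a Y1 =>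
    have h1 := congrArg List.length h
    simp at h1

/-- the answer to a play among the middle cards -/
theorem fam_G {D s u : ℕ} {Y : List ℕ} (h : Fam D Y s u) (Y1 : List ℕ) (w : ℕ) (Y2 : List ℕ)
    (hY : Y = Y1 ++ w :: Y2) (hw : 1 ≤ w) :
    Resp (D + Y1.length) (Y2.map (min (w - 1))) (min s (w - 1)) u := by
  have hne : ∀ {P : Prop}, ([] : List ℕ) = Y1 ++ w :: Y2 → P := fun h => by
    have h1 := congrArg List.length h
    simp at h1
  cases h with
  | fin _ _ h h1 => exact hne hY
  | ev _ _ h h1 h2 => exact hne hY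
  | a1 _ _ k h hsk hu => exact hne hY
  | a2 _ _ k h hsk hu => exact hne hY
  | a3 _ _ k h hsk hu => exact hne hY
  | a4 _ _ hsk hu => exact hne hY
  | od y _ _ h hy h1 h2 =>
    obtain ⟨rfl, rfl, rfl⟩ := single_split hY
    rw [List.length_nil, Nat.add_zero, List.map_nil]
    rcases Nat.lt_or_ge (4 * (min s (w - 1) - 1)) (3 * (u - 1)) with h6 | h6
    · refine nil_resp_T (u - 2) (by omega) (by omega) ?_
      have h7 : u - 1 - (u - 2) = 1 := by omega
      rw [h7]
      exact Fam.c1 _ _ _ _ (s / 3 - 1) h (by omega) (by omega) (by omega)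
    · refine nil_resp_T (u - 1) (by omega) (by omega) ?_
      have h7 : u - 1 - (u - 1) = 0 := by omega
      rw [h7]
      exact Fam.ev _ _ _ h (by omega) (by omega)
  | c1 y _ _ k h hy hsk hu =>
    obtain ⟨rfl, rfl, rfl⟩ := single_split hY
    rw [List.length_nil, Nat.add_zero, List.map_nil]
    refine nil_resp_T (u - 1) (by omega) (by omega) ?_
    have h7 : u - 1 - (u - 1) = 0 := by omega
    rw [h7]
    exact Fam.ev _ _ _ h (by omega) (by omega)
  | b y _ _ k h hy hsk hu =>
    obtain ⟨rfl, rfl, rfl⟩ := single_split hY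
    rw [List.length_nil, Nat.add_zero, List.map_nil]
    rcases Nat.lt_or_ge s w with h6 | h6
    · refine nil_resp_T (u - 1) (by omega) (by omega) ?_
      have h7 : u - 1 - (u - 1) = 0 := by omega
      rw [h7]
      exact Fam.a1 _ _ _ k h (by omega) (by omega)
    · refine nil_resp_T (u - 3) (by omega) (by omega) ?_
      have h7 : u - 1 - (u - 3) = 2 := by omega
      rw [h7]
      exact Fam.g _ _ _ _ _ (k - 1) (by omega) (by omega) (by omega) (by omega)
  | g1 y _ _ k h hy hsk hu =>
    obtain ⟨rfl, rfl, rfl⟩ := single_split hY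
    rw [List.length_nil, Nat.add_zero, List.map_nil]
    refine nil_resp_T (4 * k + 1) (by omega) (by omega) ?_
    exact Fam.c _ _ _ _ _ k (by omega) (by omega) (by omega) (by omega)
  | s1 y _ _ hy hsk hu h =>
    obtain ⟨rfl, rfl, rfl⟩ := single_split hY
    rw [List.length_nil, Nat.add_zero, List.map_nil]
    refine nil_resp_T (u - 1) (by omega) (by omega) ?_
    have h7 : u - 1 - (u - 1) = 0 := by omega
    rw [h7]
    exact Fam.fin _ _ _ (by omega) (by omega)
  | c m y _ _ k hm hy hsk hu =>
    obtain ⟨rfl, h1, h2, h3⟩ := rep_split hY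
    generalize Y1.length = i at *
    generalize Y2.length = x at *
    rw [h2, List.map_replicate]
    have h4 : min (w - 1) w = s := by omega
    have h5 : min s (w - 1) = s := by omega
    rw [h4, h5]
    rcases Nat.eq_zero_or_pos x with h6 | h6
    · rw [h6]
      refine nil_resp_T (u - 1) (by omega) (by omega) ?_
      have h7 : u - 1 - (u - 1) = 0 := by omega
      rw [h7]
      exact Fam.ev _ _ _ (by omega) (by omega) (by omega)
    · have h8 : replicate x s = replicate (x - 1) s ++ [s] := by
        have : x = (x - 1) + 1 := by omega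
        conv_lhs => rw [this, List.replicate_succ']
      rw [h8]
      refine resp_last s (by omega) ?_
      have h9 : min s (s - 1) = s - 1 := by omega
      rw [h9]
      rcases Nat.eq_zero_or_pos k with h10 | h10
      · exact Fam.fin _ _ _ (by omega) (by omega)
      · exact Fam.a1 _ _ _ k h10 (by omega) (by omega)
  | g m y _ _ k hm hy hsk hu =>
    obtain ⟨rfl, h1, h2, h3⟩ := rep_split hY
    generalize Y1.length = i at *
    generalize Y2.length = x at *
    rw [h2, List.map_replicate]
    have h4 : min (w - 1) w = s := by omega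
    have h5 : min s (w - 1) = s := by omega
    rw [h4, h5]
    refine rep_resp_T (4 * k + 1) (by omega) (by omega) rfl ?_
    rcases Nat.eq_zero_or_pos x with h6 | h6
    · have h7 : x + (u - 1 - (4 * k + 1)) = 1 := by omega
      rw [h7]
      exact Fam.c1 _ _ _ _ k (by omega) (by omega) (by omega) (by omega)
    · exact Fam.c _ _ _ _ _ k (by omega) (by omega) (by omega) (by omega)
  | h m y _ _ k hm hy hk hm1 hsk hu =>
    obtain ⟨rfl, h1, h2, h3⟩ := rep_split hY
    generalize Y1.length = i at *
    generalize Y2.length = x at *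
    rw [h2, List.map_replicate]
    have h4 : min (w - 1) w = s := by omega
    have h5 : min s (w - 1) = s := by omega
    rw [h4, h5]
    refine rep_resp_T (4 * k - 1) (by omega) (by omega) rfl ?_
    exact Fam.g _ _ _ _ _ (k - 1) (by omega) (by omega) (by omega) (by omega)
  | d1 m y _ _ hm hy hsk hu h =>
    obtain ⟨rfl, h1, h2, h3⟩ := rep_split hY
    generalize Y1.length = i at *
    generalize Y2.length = x at *
    rw [h2, List.map_replicate]
    have h4 : min (w - 1) w = s := by omega
    have h5 : min s (w - 1) = s := by omega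
    rw [h4, h5]
    rcases Nat.eq_zero_or_pos x with h6 | h6
    · rw [h6]
      refine nil_resp_T (u - 1) (by omega) (by omega) ?_
      have h7 : u - 1 - (u - 1) = 0 := by omega
      rw [h7]
      exact Fam.fin _ _ _ (by omega) (by omega)
    · have h8 : replicate x s = replicate (x - 1) s ++ [s] := by
        have : x = (x - 1) + 1 := by omega
        conv_lhs => rw [this, List.replicate_succ']
      rw [h8]
      refine resp_last s (by omega) ?_
      exact Fam.fin _ _ _ (by omega) (by omega)
  | d2 y z _ _ hy hz hsk hu =>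
    cases Y1 with
    | nil =>
      rw [List.nil_append] at hY
      injection hY with h1 h2
      subst h1
      subst h2
      rw [List.length_nil, Nat.add_zero]
      have h3 : min s (y - 1) = 2 := by omega
      have h4 : [z].map (min (y - 1)) = [min (y - 1) z] := rfl
      rw [h3, h4]
      refine resp_T (u - 1) (by omega) (by omega) ?_
      have h7 : u - 1 - (u - 1) = 0 := by omega
      rw [h7]
      exact Fam.s1 _ _ _ _ (by omega) (by omega) (by omega) (by omega)
    | cons a Y1 =>
      rw [List.cons_append] at hY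
      injection hY with h1 h2
      obtain ⟨rfl, rfl, rfl⟩ := single_split h2
      have h3 : min s (w - 1) = 2 := by omega
      rw [h3, List.map_nil]
      refine nil_resp_T (u - 2) (by omega) (by omega) ?_
      have h7 : u - 1 - (u - 2) = 1 := by omega
      rw [h7]
      have h8 : [a].length = 1 := rfl
      rw [h8]
      exact Fam.s1 _ _ _ _ (by omega) (by omega) (by omega) (by omega)

/-- in a position of the family there is a card left -/
theorem fam_pos {D s u : ℕ} {Y : List ℕ} (h : Fam D Y s u) : 1 ≤ D + Y.length + u := by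
  cases h with
  | fin _ _ h h1 => simp; omega
  | ev _ _ h h1 h2 => simp; omega
  | a1 _ _ k h hsk hu => simp; omega
  | a2 _ _ k h hsk hu => simp; omega
  | a3 _ _ k h hsk hu => simp; omega
  | a4 _ _ hsk hu => simp; omega
  | od y _ _ h hy h1 h2 => simp; omega
  | c1 y _ _ k h hy hsk hu => simp; omega
  | b y _ _ k h hy hsk hu => simp; omega
  | g1 y _ _ k h hy hsk hu => simp; omega
  | s1 y _ _ hy hsk hu h => simp; omega
  | c m y _ _ k hm hy hsk hu => simp; omega
  | g m y _ _ k hm hy hsk hu => simp; omega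
  | h m y _ _ k hm hy hk hm1 hsk hu => simp; omega
  | d1 m y _ _ hm hy hsk hu h => simp; omega
  | d2 y z _ _ hy hz hsk hu => simp; omega

end Pool.Agent.Lib.MSeq
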